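import Pool.Agent.H798.BV.Stm3
import Pool.Agent.H650.BV.C2

set_option autoImplicit false

/-! `M_{-s} ≤ σ_p`: end of the proof for `a ≥ 4` (helper181; adapted from
`Pool/Agent/H650/BV/C2.lean` by helper650 and `Pool/Agent/H263/BV/C2p.lean` by helper263). -/

namespace Pool.Agent.H181.BV

open Pool.Agent.H798.BV Filter Topology

/-- every term is at most `m ^ (1 / p)` -/
theorem c2q_le {p : ℝ} (hp : 1 < p) {m : ℕ} (x : Fin m → ℝ) (hx : ∀ k, 0 ≤ x k)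
    (h : ∑ k, x k ^ p ≤ m) (k : Fin m) : x k ≤ (m : ℝ) ^ (1 / p) := by
  have hp0 : 0 < p := by linarith
  have h2 : x k ^ p ≤ m := by
    refine le_trans ?_ h
    exact Finset.single_le_sum (f := fun k => x k ^ p)
      (fun i _ => Real.rpow_nonneg (hx i) _) (Finset.mem_univ k)
  have h4 : (x k ^ p) ^ (1 / p) ≤ (m : ℝ) ^ (1 / p) :=
    Real.rpow_le_rpow (Real.rpow_nonneg (hx k) _) h2 (by positivity)
  rwa [← Real.rpow_mul (hx k), mul_one_div_cancel hp0.ne', Real.rpow_one] at h4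

theorem t_C2Q : S_C2Q := by
  intro p s hp1 hs1 hps δ hδ
  have hp0 : 0 < p := by linarith
  have hs0 : 0 < s := by linarith
  obtain ⟨q, hq⟩ : ∃ q : ℝ, q = 1 / p + 1 / s := ⟨_, rfl⟩
  have hq1 : 0 < 1 - q := by
    rw [hq]
    linarith
  have T1 : Tendsto (fun m : ℕ => 8 / δ ^ 2 * (m : ℝ) ^ (-(1 - q))) atTop (𝓝 0) := by
    have := ((tendsto_rpow_neg_atTop hq1).comp tendsto_natCast_atTop_atTop).const_mul (8 / δ ^ 2)
    rwa [mul_zero] at this
  have T2 : Tendsto (fun m : ℕ => Real.exp (-(δ * m))) atTop (𝓝 0) := by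
    refine Real.tendsto_exp_neg_atTop_nhds_zero.comp ?_
    exact tendsto_natCast_atTop_atTop.const_mul_atTop hδ
  have T3 : Tendsto (fun m : ℕ => δ * (m : ℝ)) atTop atTop :=
    tendsto_natCast_atTop_atTop.const_mul_atTop hδ
  obtain ⟨M, hM⟩ := eventually_atTop.1 ((((T1.eventually_lt_const (by norm_num : (0 : ℝ) < 1 / 8)).and
    (T2.eventually_lt_const (by norm_num : (0 : ℝ) < 1 / 8))).and (T3.eventually_ge_atTop 4)).and
    (eventually_ge_atTop 2))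
  refine ⟨M, fun m hm a ha w hw1 hls hwp hwl J hJ h => ?_⟩
  obtain ⟨⟨⟨b1, b2⟩, b3⟩, b4⟩ := hM m hm
  have hm2 : (2 : ℝ) ≤ m := by exact_mod_cast b4
  have hm0 : (0 : ℝ) < m := by linarith
  have ha0 : 0 < a := by linarith
  obtain ⟨l, hl⟩ : ∃ l : Fin m → ℂ, ∀ k, l k = ((a : ℂ) - w k)⁻¹ := ⟨_, fun _ => rfl⟩
  simp only [← hl] at h hls hwl
  have hne : ∀ k, (a : ℂ) - w k ≠ 0 := fun k hk => hw1 k (sub_eq_zero.1 hk).symm
  have hwl1 : ∀ k, 1 - (a : ℂ) * l k = -(w k * l k) := by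
    intro k
    rw [hl]
    have := hne k
    field_simp
    ring
  have hnorm : ∀ k, ‖1 - (a : ℂ) * l k‖ = ‖w k‖ * ‖l k‖ := by
    intro k
    rw [hwl1, norm_neg, norm_mul]
  have hsum : ∑ k, ‖1 - (a : ℂ) * l k‖ ≤ (1 - δ) * m := by
    simp only [hnorm]
    exact hwl
  obtain ⟨S, hS⟩ : ∃ S : ℂ, S = (∑ k, l k) / m := ⟨_, rfl⟩
  obtain ⟨V, hV⟩ : ∃ V : ℝ, V = ((∑ k, ‖l k‖ ^ 2) / m - ‖(∑ k, l k) / m‖ ^ 2) * a ^ 2 := ⟨_, rfl⟩
  -- `1 - a S`
  have h1S : ‖1 - a * S‖ ≤ 1 := by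
    have e1 : (1 - a * S) = (∑ k, (1 - (a : ℂ) * l k)) / m := by
      rw [hS, Finset.sum_sub_distrib, ← Finset.mul_sum]
      have : (m : ℂ) ≠ 0 := by exact_mod_cast hm0.ne'
      field_simp
      simp
    have e2 : ‖(∑ k, (1 - (a : ℂ) * l k)) / (m : ℂ)‖ ≤ 1 := by
      rw [norm_div, Complex.norm_natCast, div_le_one hm0]
      refine (norm_sum_le _ _).trans (hsum.trans ?_)
      nlinarith
    rw [e1]
    exact e2
  have hS2 : ‖S‖ ≤ 1 / 2 := by
    have e1 : ‖(a : ℂ) * S‖ ≤ 2 := by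
      have e2 : (a : ℂ) * S = 1 - (1 - a * S) := by ring
      rw [e2]
      refine (norm_sub_le _ _).trans ?_
      rw [norm_one]
      linarith
    rw [norm_mul, Complex.norm_real, Real.norm_eq_abs, abs_of_pos ha0] at e1
    nlinarith [norm_nonneg S]
  -- the product
  have hprod : ‖∏ k, (1 - (a : ℂ) * l k)‖ ≤ Real.exp (-(δ * m)) := by
    rw [norm_prod]
    calc ∏ k, ‖1 - (a : ℂ) * l k‖ ≤ ∏ k, Real.exp (‖1 - (a : ℂ) * l k‖ - 1) := by
          refine Finset.prod_le_prod (fun k _ => norm_nonneg _) fun k _ => ?_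
          have := Real.add_one_le_exp (‖1 - (a : ℂ) * l k‖ - 1)
          linarith
      _ = Real.exp (∑ k, (‖1 - (a : ℂ) * l k‖ - 1)) := by rw [Real.exp_sum]
      _ ≤ Real.exp (-(δ * m)) := by
          apply Real.exp_le_exp.2
          rw [Finset.sum_sub_distrib]
          simp
          linarith
  -- the variance
  have hVle : V ≤ (m : ℝ) ^ q := by
    rw [hV]
    refine (Pool.Agent.H650.BV.c2_var (by omega) a l).trans ?_
    rw [div_le_iff₀ hm0]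
    have g1 : ∀ k, ‖1 - (a : ℂ) * l k‖ ≤ (m : ℝ) ^ q := by
      intro k
      rw [hnorm, hq, Real.rpow_add hm0]
      exact mul_le_mul (c2q_le hp1 (fun k => ‖w k‖) (fun k => norm_nonneg _) hwp k)
        (c2q_le hs1 (fun k => ‖l k‖) (fun k => norm_nonneg _) hls k) (norm_nonneg _)
        (Real.rpow_nonneg hm0.le _)
    calc ∑ k, ‖1 - (a : ℂ) * l k‖ ^ 2 ≤ ∑ k, (m : ℝ) ^ q * ‖1 - (a : ℂ) * l k‖ := by
          refine Finset.sum_le_sum fun k _ => ?_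
          rw [pow_two]
          exact mul_le_mul_of_nonneg_right (g1 k) (norm_nonneg _)
      _ = (m : ℝ) ^ q * ∑ k, ‖1 - (a : ℂ) * l k‖ := by rw [Finset.mul_sum]
      _ ≤ (m : ℝ) ^ q * m := by
          refine mul_le_mul_of_nonneg_left (hsum.trans ?_) (Real.rpow_nonneg hm0.le _)
          nlinarith
  have hmq : 0 ≤ (m : ℝ) ^ q := Real.rpow_nonneg hm0.le _
  -- the right side
  have hR : ((∑ k, ‖l k‖ ^ 2) / m - ‖(∑ k, l k) / m‖ ^ 2) * a ^ 2
        * (m - 2) ^ 2 / ((m * δ - 2) ^ 2 * (m - 1)) ≤ 1 / 8 := by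
    rw [← hV]
    refine le_trans ?_ b1.le
    have e1 : 0 < m * δ - 2 := by linarith
    have e2 : δ * m / 2 ≤ m * δ - 2 := by linarith
    have e3 : 0 < (m : ℝ) - 1 := by linarith
    have e4 : (m : ℝ) ^ (-(1 - q)) = (m : ℝ) ^ q / m := by
      rw [← Real.rpow_sub_one hm0.ne']
      congr 1
      ring
    rw [e4, div_mul_div_comm, div_le_div_iff₀ (by positivity) (by positivity)]
    have f1 : V * ((m : ℝ) - 2) ^ 2 ≤ (m : ℝ) ^ q * m ^ 2 := by
      refine mul_le_mul hVle ?_ (by positivity) hmq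
      nlinarith
    have f2 : (δ * m / 2) ^ 2 * (m / 2) ≤ (m * δ - 2) ^ 2 * (m - 1) := by
      refine mul_le_mul ?_ (by linarith) (by positivity) (by positivity)
      exact pow_le_pow_left₀ (by positivity) e2 2
    calc V * ((m : ℝ) - 2) ^ 2 * (δ ^ 2 * m) ≤ ((m : ℝ) ^ q * m ^ 2) * (δ ^ 2 * m) :=
          mul_le_mul_of_nonneg_right f1 (by positivity)
      _ = 8 * (m : ℝ) ^ q * ((δ * m / 2) ^ 2 * (m / 2)) := by ring
      _ ≤ 8 * (m : ℝ) ^ q * ((m * δ - 2) ^ 2 * (m - 1)) :=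
          mul_le_mul_of_nonneg_left f2 (by positivity)
  -- conclusion
  have h2 := h.trans hR
  rw [← hS] at h2
  have h3 : ‖S * J‖ ≤ 1 / 2 := by
    rw [norm_mul]
    nlinarith [norm_nonneg S, norm_nonneg J]
  have h4 : ‖(1 - a * S) * ∏ k, (1 - (a : ℂ) * l k)‖ ≤ 1 / 8 := by
    rw [norm_mul]
    calc ‖1 - a * S‖ * ‖∏ k, (1 - (a : ℂ) * l k)‖ ≤ 1 * Real.exp (-(δ * m)) :=
          mul_le_mul h1S hprod (norm_nonneg _) zero_le_one
      _ ≤ 1 / 8 := by linarith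
  have h6 : ‖(1 : ℂ)‖ ≤ ‖S * J‖ + ‖(1 - a * S) * ∏ k, (1 - (a : ℂ) * l k)‖ +
      ‖S * J - 1 + (1 - a * S) * ∏ k, (1 - (a : ℂ) * l k)‖ := by
    have e1 := norm_sub_le (S * J + (1 - a * S) * ∏ k, (1 - (a : ℂ) * l k))
      (S * J - 1 + (1 - a * S) * ∏ k, (1 - (a : ℂ) * l k))
    have e2 := norm_add_le (S * J) ((1 - a * S) * ∏ k, (1 - (a : ℂ) * l k))
    have e3 : (S * J + (1 - a * S) * ∏ k, (1 - (a : ℂ) * l k)) -
      (S * J - 1 + (1 - a * S) * ∏ k, (1 - (a : ℂ) * l k)) = 1 := by ring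
    rw [e3] at e1
    linarith
  rw [norm_one] at h6
  linarith

end Pool.Agent.H181.BV

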