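import Pool.Agent.H798.BV.Stm2
import Pool.Agent.H878.BV.Th

set_option autoImplicit false

/-!
# The mean of `|w| |a - w|⁻¹` stays away from one, `2 < p ≤ 3`

The functions `thM` and their properties are from `Pool/Agent/H878/BV/Th.lean`.
-/

open Polynomial

namespace Pool.Agent.H181.BV

open Pool.Agent.H798.BV Pool.Agent.H878.BV

/-- the function `(1/2 - 1/p) + ρ^p/p + ℓ²/2 - ρ ℓ` -/
noncomputable def NN (p ρ ℓ : ℝ) : ℝ := thM (p / 2) (ρ ^ 2) / 2 + (ρ - ℓ) ^ 2 / 2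

theorem sq_rpow {p ρ : ℝ} (hρ : 0 ≤ ρ) : (ρ ^ 2) ^ (p / 2) = ρ ^ p := by
  rw [← Real.rpow_natCast ρ 2, ← Real.rpow_mul hρ]
  congr 1
  push_cast
  ring

theorem NN_eq {p ρ ℓ : ℝ} (hp : 2 < p) (hρ : 0 ≤ ρ) :
    NN p ρ ℓ = (1 / 2 - 1 / p) + ρ ^ p / p + ℓ ^ 2 / 2 - ρ * ℓ := by
  have hp0 : p ≠ 0 := by linarith
  unfold NN thM
  rw [sq_rpow hρ]
  field_simp
  ring

theorem NN_nonneg {p ρ ℓ : ℝ} (hp : 2 < p) (hρ : 0 ≤ ρ) : 0 ≤ NN p ρ ℓ := by
  have h1 := thM_nonneg (p := p / 2) (ρ := ρ ^ 2) (by linarith) (by positivity)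
  unfold NN
  positivity

/-- the key inequality for one point -/
theorem thp_key {p : ℝ} (hp1 : 2 < p) (hp2 : p ≤ 3) {a₀ : ℝ} (ha₀ : 0 < a₀) :
    ∃ K : ℝ, 0 < K ∧ ∀ a : ℝ, a₀ ≤ a → a ≤ 4 → ∀ w : ℂ, w ≠ a →
      a / 4 - K * NN p ‖w‖ ‖((a : ℂ) - w)⁻¹‖ ≤ ‖w‖ ^ (p - 2) * w.re := by
  have hp0 : 0 < p := by linarith
  have hq1 : 1 < p / 2 := by linarith
  set ε : ℝ := min (1 / 8) (a₀ ^ 2 / 40) with hε
  have hε0 : 0 < ε := lt_min (by norm_num) (by positivity)
  have hε1 : ε ≤ 1 / 8 := min_le_left _ _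
  have hε2 : ε ≤ a₀ ^ 2 / 40 := min_le_right _ _
  set κ : ℝ := min (1 / 8) (a₀ ^ 2 / 32) with hκ
  have hκ0 : 0 < κ := lt_min (by norm_num) (by positivity)
  have hκ1 : κ ≤ 1 / 8 := min_le_left _ _
  have hκ2 : κ ≤ a₀ ^ 2 / 32 := min_le_right _ _
  set μ : ℝ := min (thM (p / 2) (1 - ε)) (thM (p / 2) (1 + ε)) with hμ
  have hμ0 : 0 < μ := by
    refine lt_min (thM_pos hq1 (by linarith) ?_) (thM_pos hq1 (by linarith) ?_)
    · intro h
      linarith
    · intro h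
      linarith
  set η : ℝ := min (κ ^ 2 / 2) (μ / 4) with hη
  have hη0 : 0 < η := lt_min (by positivity) (by positivity)
  have hη1 : η ≤ κ ^ 2 / 2 := min_le_left _ _
  have hη2 : η ≤ μ / 4 := min_le_right _ _
  set R : ℝ := p ^ (1 / (p / 2 - 1)) with hR
  have hR0 : 0 < R := Real.rpow_pos_of_pos hp0 _
  have hK0 : 0 < (2 + p * R) / η + 2 * p := by positivity
  refine ⟨(2 + p * R) / η + 2 * p, hK0, ?_⟩
  intro a ha ha4 w hw
  have ha0 : 0 < a := by linarith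
  have haw : (a : ℂ) - w ≠ 0 := sub_ne_zero.2 (Ne.symm hw)
  set ρ : ℝ := ‖w‖ with hρ
  have hρ0 : 0 ≤ ρ := norm_nonneg w
  set L : ℝ := ‖(a : ℂ) - w‖ with hL
  have hL0 : 0 < L := norm_pos_iff.2 haw
  rw [norm_inv, ← hL]
  have hM0 : 0 ≤ thM (p / 2) (ρ ^ 2) := thM_nonneg hq1 (by positivity)
  have hℓ0 : 0 < L⁻¹ := inv_pos.2 hL0
  have hN0 : 0 ≤ NN p ρ L⁻¹ := NN_nonneg hp1 hρ0
  have hNdef : NN p ρ L⁻¹ = thM (p / 2) (ρ ^ 2) / 2 + (ρ - L⁻¹) ^ 2 / 2 := rfl
  generalize NN p ρ L⁻¹ = N at hN0 hNdef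
  have hsq0 : 0 ≤ (ρ - L⁻¹) ^ 2 := sq_nonneg _
  rcases le_or_gt N η with hsmall | hbig
  · -- small N
    have h1 : |ρ ^ 2 - 1| < ε := by
      by_contra hcon
      have h2 := thM_far hq1 (sq_nonneg ρ) hε0 (not_lt.1 hcon)
      rw [← hμ] at h2
      linarith
    obtain ⟨h1a, h1b⟩ := abs_lt.1 h1
    have hρh : 1 - ε ≤ ρ := by
      by_contra hcon
      have h2 : ρ < 1 - ε := not_le.1 hcon
      have h3 : ρ ^ 2 ≤ (1 - ε) ^ 2 := pow_le_pow_left₀ hρ0 h2.le 2
      nlinarith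
    have h2 : |ρ - L⁻¹| ≤ κ := by
      apply abs_le_of_sq_le_sq _ hκ0.le
      linarith
    have h3 := abs_le.1 h2
    have h4 : 1 - (ε + κ) ≤ L⁻¹ := by linarith [h3.2]
    have h5 : L ^ 2 ≤ 1 + 4 * (ε + κ) := by
      have hσ0 : 0 < ε + κ := by linarith
      have hσ1 : ε + κ ≤ 1 / 4 := by linarith
      generalize ε + κ = σ at h4 hσ0 hσ1
      have h6 : (1 - σ) * L ≤ 1 := by
        have h7 := mul_le_mul_of_nonneg_right h4 hL0.le
        rwa [inv_mul_cancel₀ hL0.ne'] at h7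
      have h8 : 0 ≤ (1 - σ) * L := mul_nonneg (by linarith) hL0.le
      have h7 : ((1 - σ) * L) ^ 2 ≤ 1 := by
        have := pow_le_pow_left₀ h8 h6 2
        rwa [one_pow] at this
      have h9 : 1 ≤ (1 - σ) ^ 2 * (1 + 4 * σ) := by
        have e1 : (1 - σ) ^ 2 * (1 + 4 * σ) = 1 + σ * ((2 - 7 * σ) + 4 * σ ^ 2) := by ring
        have e2 : 0 ≤ σ * ((2 - 7 * σ) + 4 * σ ^ 2) :=
          mul_nonneg hσ0.le (add_nonneg (by linarith) (by positivity))
        linarith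
      have h10 : 0 < (1 - σ) ^ 2 := by
        have : 0 < 1 - σ := by linarith
        positivity
      have h11 : (1 - σ) ^ 2 * L ^ 2 ≤ (1 - σ) ^ 2 * (1 + 4 * σ) := by
        have e : (1 - σ) ^ 2 * L ^ 2 = ((1 - σ) * L) ^ 2 := by ring
        rw [e]
        linarith
      exact le_of_mul_le_mul_left h11 h10
    have h6 : L ^ 2 = a ^ 2 - 2 * a * w.re + ρ ^ 2 := by
      rw [hL, hρ, ← Complex.normSq_eq_norm_sq, ← Complex.normSq_eq_norm_sq,
        Complex.normSq_apply, Complex.normSq_apply]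
      simp
      ring
    have ha2 : a₀ ^ 2 ≤ a ^ 2 := by nlinarith
    have h7 : 3 * a / 8 ≤ w.re := by
      have h8 : 3 / 4 * a ^ 2 ≤ 2 * a * w.re := by linarith
      have h9 : a * (3 * a / 8) ≤ a * w.re := by nlinarith
      exact le_of_mul_le_mul_left h9 ha0
    have h8 : 2 / 3 ≤ ρ ^ (p - 2) := by
      have hρ2 : 2 / 3 ≤ ρ := by linarith
      rcases le_or_gt ρ 1 with h9 | h9
      · have h10 := Real.rpow_le_rpow_of_exponent_ge (show 0 < ρ by linarith) h9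
          (show p - 2 ≤ 1 by linarith)
        rw [Real.rpow_one] at h10
        linarith
      · have h10 := Real.one_le_rpow h9.le (show 0 ≤ p - 2 by linarith)
        linarith
    have h9 : 0 ≤ ((2 + p * R) / η + 2 * p) * N := mul_nonneg hK0.le hN0
    have h10 : 2 / 3 * (3 * a / 8) ≤ ρ ^ (p - 2) * w.re :=
      mul_le_mul h8 h7 (by positivity) (by linarith)
    linarith
  · -- large N
    have hρp0 : 0 ≤ ρ ^ p := Real.rpow_nonneg hρ0 p
    have h1 : -(1 + ρ ^ p) ≤ ρ ^ (p - 2) * w.re := by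
      rcases eq_or_lt_of_le hρ0 with h0 | h0
      · have hw0 : w = 0 := norm_eq_zero.1 h0.symm
        rw [hw0]
        simp
        linarith
      · have h2 : |w.re| ≤ ρ := Complex.abs_re_le_norm w
        have h3 : ρ ^ (p - 2) * ρ = ρ ^ (p - 1) := by
          nth_rewrite 2 [← Real.rpow_one ρ]
          rw [← Real.rpow_add h0]
          congr 1
          ring
        have h4 : ρ ^ (p - 1) ≤ 1 + ρ ^ p := by
          rcases le_or_gt ρ 1 with h5 | h5
          · have := Real.rpow_le_one hρ0 h5 (show 0 ≤ p - 1 by linarith)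
            linarith
          · have := Real.rpow_le_rpow_of_exponent_le h5.le (show p - 1 ≤ p by linarith)
            linarith
        have h5 : 0 ≤ ρ ^ (p - 2) := Real.rpow_nonneg hρ0 _
        have h6 : ρ ^ (p - 2) * (-ρ) ≤ ρ ^ (p - 2) * w.re :=
          mul_le_mul_of_nonneg_left (by linarith [(abs_le.1 h2).1]) h5
        linarith
    have h2 : ρ ^ 2 ≤ ρ ^ p / p + R := by
      rcases le_or_gt (ρ ^ 2) R with h3 | h3
      · have : 0 ≤ ρ ^ p / p := by positivity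
        linarith
      · have hxpos : 0 < ρ ^ 2 := hR0.trans h3
        have h4 : p ≤ (ρ ^ 2) ^ (p / 2 - 1) := by
          have h5 : R ^ (p / 2 - 1) = p := by
            rw [hR, ← Real.rpow_mul hp0.le, one_div, inv_mul_cancel₀ (by linarith),
              Real.rpow_one]
          calc p = R ^ (p / 2 - 1) := h5.symm
            _ ≤ (ρ ^ 2) ^ (p / 2 - 1) := Real.rpow_le_rpow hR0.le h3.le (by linarith)
        have h5 : (ρ ^ 2) ^ (p / 2 - 1) * ρ ^ 2 = ρ ^ p := by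
          rw [← sq_rpow hρ0 (p := p)]
          nth_rewrite 2 [← Real.rpow_one (ρ ^ 2)]
          rw [← Real.rpow_add hxpos]
          congr 1
          ring
        have h6 : ρ ^ 2 ≤ ρ ^ p / p := by
          rw [le_div_iff₀ hp0, ← h5]
          nlinarith
        linarith
    have h3 : ρ ^ p ≤ p * (2 * N + R) := by
      have h4 : 2 * (ρ ^ p / p) - ρ ^ 2 ≤ thM (p / 2) (ρ ^ 2) := by
        unfold thM
        rw [sq_rpow hρ0]
        have e1 : ρ ^ p / (p / 2) = 2 * (ρ ^ p / p) := by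
          field_simp
        have e2 : 1 / (p / 2) ≤ 1 := by
          rw [div_le_one (by linarith)]
          exact hq1.le
        rw [e1]
        linarith
      have h6 : ρ ^ p / p ≤ 2 * N + R := by linarith
      rw [div_le_iff₀ hp0] at h6
      linarith
    have h4 : (2 + p * R) ≤ (2 + p * R) / η * N := by
      rw [div_mul_eq_mul_div, le_div_iff₀ hη0]
      exact mul_le_mul_of_nonneg_left hbig.le (by positivity)
    have h5 : ((2 + p * R) / η + 2 * p) * N = (2 + p * R) / η * N + 2 * p * N := by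
      ring
    rw [h5]
    linarith

theorem t_THP (hB2 : S_B2P) : S_THP := by
  intro p hp1 hp2 a₀ ha₀
  have hp0 : 0 < p := by linarith
  have hq1 : 1 < p / 2 := by linarith
  obtain ⟨K, hK, hkey⟩ := thp_key hp1 hp2 ha₀
  -- the two constants
  set μ : ℝ := min (thM (p / 2) (1 - 1 / 2)) (thM (p / 2) (1 + 1 / 2)) with hμ
  have hμ0 : 0 < μ := by
    refine lt_min (thM_pos hq1 (by norm_num) (by norm_num)) (thM_pos hq1 (by norm_num)
      (by norm_num))
  set δ₁ : ℝ := min (μ / 2) (1 / 50) with hδ₁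
  have hδ₁0 : 0 < δ₁ := lt_min (by positivity) (by norm_num)
  set t : ℝ := min 1 (p * a₀ / 48) with ht
  have ht0 : 0 < t := lt_min one_pos (by positivity)
  have ht1 : t ≤ 1 := min_le_left _ _
  have ht2 : t ≤ p * a₀ / 48 := min_le_right _ _
  have htp : 3 * (t ^ 2 + t ^ p) ≤ p * a₀ * t / 8 := by
    have h1 : t ^ p ≤ t ^ 2 := by
      rw [← Real.rpow_natCast t 2]
      exact Real.rpow_le_rpow_of_exponent_ge ht0 ht1 (by push_cast; linarith)
    nlinarith
  set δ₂ : ℝ := t * a₀ / (8 * (1 + t * K)) with hδ₂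
  have hδ₂0 : 0 < δ₂ := by positivity
  refine ⟨min δ₁ δ₂, lt_min hδ₁0 hδ₂0, ?_⟩
  intro a ha m w hw hl2 hc
  have ha0 : 0 < a := by linarith
  have hm0 : (0 : ℝ) ≤ m := by positivity
  have hsum0 : ∑ k, ‖w k‖ ^ p ≤ m := by
    have := hc 0
    simp only [sub_zero, norm_zero, Real.zero_rpow hp0.ne', ne_eq, OfNat.ofNat_ne_zero,
      not_false_eq_true, zero_pow, mul_zero, add_zero, mul_one] at this
    exact this
  set D : ℝ := m - ∑ k, ‖w k‖ * ‖((a : ℂ) - w k)⁻¹‖ with hD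
  set SN : ℝ := ∑ k, NN p ‖w k‖ ‖((a : ℂ) - w k)⁻¹‖ with hSN
  have hSNe : SN = m * (1 / 2 - 1 / p) + (∑ k, ‖w k‖ ^ p) / p +
      (∑ k, ‖((a : ℂ) - w k)⁻¹‖ ^ 2) / 2 - ∑ k, ‖w k‖ * ‖((a : ℂ) - w k)⁻¹‖ := by
    rw [hSN]
    simp only [NN_eq hp1 (norm_nonneg _)]
    rw [Finset.sum_sub_distrib, Finset.sum_add_distrib, Finset.sum_add_distrib,
      ← Finset.sum_div, ← Finset.sum_div]
    simp
    ring
  have hSN0 : 0 ≤ SN := by
    rw [hSN]
    exact Finset.sum_nonneg fun k _ => NN_nonneg hp1 (norm_nonneg _)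
  have hmp : (m : ℝ) * (1 / 2 - 1 / p) = m / 2 - m / p := by ring
  have hSND : SN ≤ D := by
    have h2 : (∑ k, ‖w k‖ ^ p) / p ≤ m / p := div_le_div_of_nonneg_right hsum0 hp0.le
    rw [hSNe, hD, hmp]
    linarith
  rcases le_or_gt 4 a with h4 | h4
  · -- a ≥ 4
    have hpt : ∀ k, δ₁ ≤ NN p ‖w k‖ ‖((a : ℂ) - w k)⁻¹‖ := by
      intro k
      have hρ0 := norm_nonneg (w k)
      have hM := thM_nonneg (p := p / 2) (ρ := ‖w k‖ ^ 2) hq1 (sq_nonneg _)
      unfold NN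
      rcases le_or_gt (1 / 2 : ℝ) |‖w k‖ ^ 2 - 1| with h | h
      · have h1 := thM_far hq1 (sq_nonneg ‖w k‖) (by norm_num : (0 : ℝ) < 1 / 2) h
        rw [← hμ] at h1
        have h2 : δ₁ ≤ μ / 2 := min_le_left _ _
        have h3 : 0 ≤ (‖w k‖ - ‖((a : ℂ) - w k)⁻¹‖) ^ 2 := sq_nonneg _
        linarith
      · obtain ⟨h1a, h1b⟩ := abs_lt.1 h
        have h2 : 7 / 10 ≤ ‖w k‖ := by
          by_contra hcon
          have h3 := pow_le_pow_left₀ hρ0 (not_le.1 hcon).le 2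
          norm_num at h3
          linarith
        have h3 : ‖w k‖ ≤ 2 := by
          by_contra hcon
          have h3 := pow_le_pow_left₀ (by norm_num : (0 : ℝ) ≤ 2) (not_le.1 hcon).le 2
          linarith
        have h5 : 2 ≤ ‖(a : ℂ) - w k‖ := by
          have h2 := norm_sub_norm_le (a : ℂ) (w k)
          rw [Complex.norm_real, Real.norm_eq_abs, abs_of_pos ha0] at h2
          linarith
        have h6 : ‖((a : ℂ) - w k)⁻¹‖ ≤ 1 / 2 := by
          rw [norm_inv, one_div]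
          exact inv_anti₀ (by norm_num) h5
        have h7 : 1 / 5 ≤ ‖w k‖ - ‖((a : ℂ) - w k)⁻¹‖ := by linarith
        have h8 := pow_le_pow_left₀ (by norm_num : (0 : ℝ) ≤ 1 / 5) h7 2
        have h9 : δ₁ ≤ 1 / 50 := min_le_right _ _
        have h10 : ((1 : ℝ) / 5) ^ 2 = 1 / 25 := by norm_num
        rw [h10] at h8
        linarith
    have h1 : δ₁ * m ≤ SN := by
      calc δ₁ * m = ∑ _k : Fin m, δ₁ := by
            simp
            ring
        _ ≤ SN := Finset.sum_le_sum fun k _ => hpt k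
    have h6 : ∑ k, ‖w k‖ * ‖((a : ℂ) - w k)⁻¹‖ ≤ (1 - δ₁) * m := by
      linarith
    refine h6.trans ?_
    exact mul_le_mul_of_nonneg_right (by linarith [min_le_left δ₁ δ₂]) hm0
  · -- a₀ ≤ a ≤ 4
    have hlow : m - p * D ≤ ∑ k, ‖w k‖ ^ p := by
      have h6 : m / p - D ≤ (∑ k, ‖w k‖ ^ p) / p := by
        rw [hSNe, hmp] at hSN0
        rw [hD]
        linarith
      rw [le_div_iff₀ hp0] at h6
      have h7 : (m / p - D) * p = m - p * D := by
        field_simp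
      linarith
    have hc1 := hc (-(t : ℂ))
    have hnt : ‖-(t : ℂ)‖ = t := by
      rw [norm_neg, Complex.norm_real, Real.norm_eq_abs, abs_of_pos ht0]
    rw [hnt] at hc1
    have hc2 : (m : ℝ) * (1 + 3 * (t ^ 2 + t ^ p)) ≤ m * (1 + p * a₀ * t / 8) :=
      mul_le_mul_of_nonneg_left (by linarith) hm0
    have hB : ∑ k, (‖w k‖ ^ p + p * (t * (‖w k‖ ^ (p - 2) * (w k).re))) ≤
        ∑ k, ‖w k - -(t : ℂ)‖ ^ p := by
      refine Finset.sum_le_sum (fun k _ => ?_)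
      have h6 := hB2 p (by linarith) (w k - -(t : ℂ)) (w k)
      rw [show w k - -(t : ℂ) - w k = (t : ℂ) by ring, th_re] at h6
      have h7 : p * (‖w k‖ ^ (p - 2) * (w k).re * t) =
          p * (t * (‖w k‖ ^ (p - 2) * (w k).re)) := by ring
      rw [h7] at h6
      exact h6
    have hkeysum : m * (a / 4) - K * SN ≤ ∑ k, ‖w k‖ ^ (p - 2) * (w k).re := by
      calc m * (a / 4) - K * SN = ∑ k, (a / 4 - K * NN p ‖w k‖ ‖((a : ℂ) - w k)⁻¹‖) := by
            rw [Finset.sum_sub_distrib, ← Finset.mul_sum, ← hSN]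
            simp
        _ ≤ _ := Finset.sum_le_sum (fun k _ => hkey a ha h4.le (w k) (hw k))
    rw [Finset.sum_add_distrib, ← Finset.mul_sum, ← Finset.mul_sum] at hB
    have h8 : (m : ℝ) * (a₀ / 4) - K * D ≤ ∑ k, ‖w k‖ ^ (p - 2) * (w k).re := by
      have h9 : (m : ℝ) * (a₀ / 4) ≤ m * (a / 4) :=
        mul_le_mul_of_nonneg_left (by linarith) hm0
      have h10 : K * SN ≤ K * D := mul_le_mul_of_nonneg_left hSND hK.le
      linarith
    have h9 : p * (t * (m * (a₀ / 4) - K * D)) ≤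
        p * (t * ∑ k, ‖w k‖ ^ (p - 2) * (w k).re) :=
      mul_le_mul_of_nonneg_left (mul_le_mul_of_nonneg_left h8 ht0.le) hp0.le
    have h10 : m - p * D + p * (t * (m * (a₀ / 4) - K * D)) ≤ m * (1 + p * a₀ * t / 8) := by
      linarith
    have h11 : m * (t * a₀ / 8) ≤ D * (1 + t * K) := by
      have h12 : p * (m * (t * a₀ / 8)) ≤ p * (D * (1 + t * K)) := by
        linear_combination h10
      exact le_of_mul_le_mul_left h12 hp0
    have h12 : δ₂ * m ≤ D := by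
      rw [hδ₂, div_mul_eq_mul_div, div_le_iff₀ (by positivity)]
      linarith
    have h13 : ∑ k, ‖w k‖ * ‖((a : ℂ) - w k)⁻¹‖ ≤ (1 - δ₂) * m := by
      rw [hD] at h12
      linarith
    refine h13.trans ?_
    exact mul_le_mul_of_nonneg_right (by linarith [min_le_right δ₁ δ₂]) hm0

end Pool.Agent.H181.BV

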